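import Pool.Agent.H259Z.Rich.RedDefs

/-! The base case and the assembly of the reduction for free solvable groups. -/

set_option autoImplicit false

namespace Pool.Agent.H259Z.Rich

theorem sum_ind_zmod (l : ℕ) [NeZero l] (a b : ZMod l) :
    ∑ j ∈ Finset.range l, (if a + (j : ZMod l) = b then (1 : ℤ) else 0) = 1 := by
  classical
  rw [Finset.sum_eq_single (b - a).val]
  · simp
  · intro j hj hne
    rw [if_neg]
    intro e
    apply hne
    rw [← e, add_sub_cancel_left, ZMod.val_natCast_of_lt (Finset.mem_range.1 hj)]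
  · intro h
    exact (h (Finset.mem_range.2 (ZMod.val_lt _))).elim

theorem base_aux {Q : Type} [Group Q] (hc : ∀ a b : Q, a * b = b * a) {r : ℕ} (x : Fin r → Q)
    (hx : Subgroup.closure (Set.range x) = ⊤) (δ : Q →* Multiplicative ℤ) (c : Q) (hδ : δ c = 1)
    (T : Finset Q) (M : Q → ℤ) (hM : ∀ a b, M (a * b) = M a + M b) (hMc : M c = 1)
    (hT : ∀ s ∈ T, ∀ s' ∈ T, M s = M s' → s = s') :
    ∃ (H : Subgroup Q) (c : Q) (l : ℕ) (Y : Set Q),
    GenLe (r + 1) H ∧ H.FiniteIndex ∧ c ∈ (⊤ : Subgroup Q) ∧ δ c = 1 ∧ 0 < l ∧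
    RedR δ (r + 1) 0 Y ∧ (∀ q, ∃ y ∈ Y, y⁻¹ * q ∈ H) ∧
    ∀ s ∈ T, ∃ χ : Q → ℤ, (∀ q, ∀ h ∈ H, χ (q * h) = χ q) ∧
      (∀ q, ∑ j ∈ Finset.range l, χ (q * c ^ j) = 0) ∧ χ s = 1 ∧
      ∀ s' ∈ T, s' ≠ s → χ s' = 0 := by
  classical
  let _ : CommGroup Q := { (inferInstance : Group Q) with mul_comm := hc }
  let Mh : Q →* Multiplicative ℤ := MonoidHom.mk' (fun g => Multiplicative.ofAdd (M g))
    fun a b => by rw [hM, ofAdd_add]
  have hMz : ∀ (a : Q) (n : ℤ), M (a ^ n) = n * M a := fun a n => by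
    have := congrArg Multiplicative.toAdd (map_zpow Mh a n)
    simpa [Mh] using this
  obtain ⟨B, hB⟩ : ∃ B : ℕ, ∀ s ∈ T, |M s| ≤ B :=
    ⟨∑ s ∈ T, (M s).natAbs, fun s hs => by
      have := Finset.single_le_sum (f := fun s => (M s).natAbs) (fun _ _ => Nat.zero_le _) hs
      rw [Int.abs_eq_natAbs]
      exact_mod_cast this⟩
  obtain ⟨l, hl⟩ : ∃ l : ℕ, l = 2 * B + 2 := ⟨_, rfl⟩
  have : NeZero l := ⟨by omega⟩
  have hsep : ∀ u v : ℤ, |u - v| < l → (u : ZMod l) = v → u = v := by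
    intro u v h e
    have h1 := (ZMod.intCast_eq_intCast_iff_dvd_sub u v l).1 e
    have h2 := Int.eq_zero_of_abs_lt_dvd h1 (by rw [abs_sub_comm]; exact h)
    omega
  let g : Fin (r + 1) → Q := Fin.cons (c ^ l) fun i => (c ^ M (x i))⁻¹ * x i
  let H : Subgroup Q := Subgroup.closure (Set.range g)
  have hcl : c ^ l ∈ H := Subgroup.subset_closure ⟨0, rfl⟩
  have hxi : ∀ i, (c ^ M (x i))⁻¹ * x i ∈ H := fun i => Subgroup.subset_closure ⟨i.succ, rfl⟩
  have hH : ∀ h ∈ H, (M h : ZMod l) = 0 := by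
    intro h hh
    induction hh using Subgroup.closure_induction with
    | mem y hy =>
      obtain ⟨i, rfl⟩ := hy
      refine Fin.cases ?_ (fun i => ?_) i
      · show (M (c ^ l) : ZMod l) = 0
        rw [← zpow_natCast, hMz, hMc]
        simp
      · show (M ((c ^ M (x i))⁻¹ * x i) : ZMod l) = 0
        rw [hM, ← zpow_neg, hMz, hMc]
        simp
    | one =>
      have := hMz 1 0
      rw [zpow_zero, zero_mul] at this
      rw [this, Int.cast_zero]
    | mul a b _ _ ha hb => rw [hM, Int.cast_add, ha, hb, add_zero]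
    | inv a _ ha => rw [← zpow_neg_one, hMz, Int.cast_mul, ha, mul_zero]
  have h1 : ∀ q : Q, ∃ j : ℤ, (c ^ j)⁻¹ * q ∈ H := by
    intro q
    have hq : q ∈ Subgroup.closure (Set.range x) := by rw [hx]; trivial
    induction hq using Subgroup.closure_induction with
    | mem y hy => obtain ⟨i, rfl⟩ := hy; exact ⟨_, hxi i⟩
    | one => exact ⟨0, by simp⟩
    | mul a b _ _ ha hb =>
      obtain ⟨i, hi⟩ := ha
      obtain ⟨j, hj⟩ := hb
      refine ⟨i + j, ?_⟩
      have := H.mul_mem hi hj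
      rwa [mul_mul_mul_comm, ← mul_inv, ← zpow_add] at this
    | inv a _ ha =>
      obtain ⟨i, hi⟩ := ha
      refine ⟨-i, ?_⟩
      have := H.inv_mem hi
      rwa [mul_inv, ← zpow_neg] at this
  have h2 : ∀ q : Q, ∃ j : ℕ, j < l ∧ (c ^ j)⁻¹ * q ∈ H := by
    intro q
    obtain ⟨j, hj⟩ := h1 q
    have hl0 : (0 : ℤ) < l := by omega
    refine ⟨(j % l).toNat, ?_, ?_⟩
    · have := Int.emod_lt_of_pos j hl0
      omega
    · have := H.mul_mem (H.zpow_mem hcl (j / l)) hj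
      rw [← mul_assoc, ← zpow_natCast, ← zpow_mul, ← zpow_neg, ← zpow_add] at this
      rw [← zpow_natCast, Int.toNat_of_nonneg (Int.emod_nonneg j hl0.ne'), ← zpow_neg]
      have e : (l : ℤ) * (j / l) + -j = -(j % l) := by
        have := Int.mul_ediv_add_emod j l
        omega
      rwa [e] at this
  refine ⟨H, c, l, Set.range (fun j : ℕ => c ^ j), ⟨g, rfl⟩, ?_, trivial, hδ, by omega,
    ⟨c, hδ, ?_⟩, fun q => ?_, fun s hs => ?_⟩
  · have : Finite (Q ⧸ H) := by
      refine Finite.of_surjective (fun j : Fin l => ((c ^ (j : ℕ) : Q) : Q ⧸ H)) fun q => ?_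
      obtain ⟨q, rfl⟩ := QuotientGroup.mk_surjective q
      obtain ⟨j, hj, hq⟩ := h2 q
      exact ⟨⟨j, hj⟩, QuotientGroup.eq.2 hq⟩
    exact Subgroup.finiteIndex_of_finite_quotient
  · rintro _ ⟨j, rfl⟩
    exact ⟨j, rfl⟩
  · obtain ⟨j, -, hj⟩ := h2 q
    exact ⟨_, ⟨j, rfl⟩, hj⟩
  · have hne : ∀ t ∈ T, (M t : ZMod l) ≠ ((B + 1 : ℤ) : ZMod l) := by
      intro t ht e
      have h3 := abs_le.1 (hB t ht)
      have := hsep _ _ (by rw [abs_lt]; constructor <;> omega) e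
      omega
    refine ⟨fun q => (if (M q : ZMod l) = M s then 1 else 0) -
      (if (M q : ZMod l) = ((B + 1 : ℤ) : ZMod l) then 1 else 0), fun q h hh => ?_, fun q => ?_,
      ?_, fun t ht hts => ?_⟩
    · simp only [hM, Int.cast_add, hH h hh, add_zero]
    · have e : ∀ j : ℕ, (M (q * c ^ j) : ZMod l) = (M q : ZMod l) + (j : ZMod l) := by
        intro j
        rw [hM, ← zpow_natCast, hMz, hMc]
        simp
      simp only [e, Finset.sum_sub_distrib, sum_ind_zmod, sub_self]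
    · simp only [if_neg (hne s hs), if_true, sub_zero]
    · have h3 := abs_le.1 (hB t ht)
      have h4 := abs_le.1 (hB s hs)
      simp only [if_neg (hne t ht), sub_zero]
      rw [if_neg]
      intro e
      exact hts (hT t ht s hs (hsep _ _ (by rw [abs_lt]; constructor <;> omega) e))

theorem eq_one_of_dg {r : ℕ} (q : FS r 1) (h : ∀ i, (msd r 0).dg i q = 0) : q = 1 := by
  apply (msd r 0).inj
  funext i
  have h1 := h i
  unfold MS.dg at h1
  apply MonoidAlgebra.coeff_eq_zero.1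
  ext s
  rw [E_coeff s (fun t _ ht => (ht (Subsingleton.elim _ _)).elim)] at h1
  simpa using h1

open Polynomial in
theorem base : BaseStmt := by
  classical
  intro r i1 i2 hi T
  let S := msd r 0
  let e : Fin r → ℕ := fun i => (Equiv.swap i1 ⟨0, i1.pos⟩ i : Fin r)
  have he : Function.Injective e := Fin.val_injective.comp (Equiv.injective _)
  have he1 : e i1 = 0 := by simp [e]
  let P : FS r 1 → ℤ[X] := fun q => ∑ i, monomial (e i) (S.dg i q)
  have hP : ∀ q, P q = 0 → q = 1 := by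
    intro q hq
    refine eq_one_of_dg q fun i => ?_
    have := congrArg (fun p => Polynomial.coeff p (e i)) hq
    simp only [P, finsetSum_coeff, coeff_monomial, he.eq_iff, coeff_zero] at this
    simpa using this
  have hPm : ∀ a b, P (a * b) = P a + P b := by
    intro a b
    simp only [P, S.dg_mul, map_add, Finset.sum_add_distrib]
  have hPc : P (S.x i1) = 1 := by
    simp only [P, S.dg_x]
    rw [Finset.sum_eq_single i1]
    · simp [he1]
    · intro j _ hj
      simp [hj]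
    · simp
  let R : ℤ[X] := ∏ p ∈ (T ×ˢ T).filter (fun p => p.1 ≠ p.2), P (p.1⁻¹ * p.2)
  have hR : R ≠ 0 := by
    refine Finset.prod_ne_zero_iff.2 fun p hp h0 => ?_
    exact (Finset.mem_filter.1 hp).2 (inv_mul_eq_one.1 (hP _ h0))
  obtain ⟨N, hN⟩ := (Polynomial.finite_setOfPred_isRoot hR).exists_notMem
  refine base_aux (fun a b => S.ker_comm (Subsingleton.elim _ _) (Subsingleton.elim _ _)) S.x S.gen
    _ (S.x i1) ?_ T (fun q => (P q).eval N) (fun a b => by rw [hPm, eval_add])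
    (by rw [hPc, eval_one]) fun s hs t ht h => ?_
  · show Multiplicative.ofAdd (S.dg i2 (S.x i1)) = 1
    rw [S.dg_x, if_neg hi.symm]
    rfl
  · by_contra hst
    apply hN
    show R.eval N = 0
    rw [eval_prod]
    refine Finset.prod_eq_zero (i := (s, t))
      (Finset.mem_filter.2 ⟨Finset.mem_product.2 ⟨hs, ht⟩, hst⟩) ?_
    have := congrArg (eval N) (hPm s (s⁻¹ * t))
    rw [mul_inv_cancel_left, eval_add] at this
    simp only at h ⊢
    omega

theorem RedR.red {Q : Type} [Group Q] {δ : Q →* Multiplicative ℤ} {k : ℕ} :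
    ∀ {n : ℕ} {Y : Set Q}, RedR δ k n Y → Red k n Y⁻¹
  | 0, _, ⟨g, _, hg⟩ => ⟨g⁻¹, fun q hq => by
      obtain ⟨j, hj⟩ := hg _ (Set.mem_inv.1 hq)
      exact ⟨j, by rw [inv_pow, ← hj, inv_inv]⟩⟩
  | n + 1, Y, h => by
    classical
    intro T hT Λ hΛ
    obtain ⟨H, U, hH, -, -, -, hs, Y', -, hY', hq⟩ := h T hT (Λ.image (·⁻¹)) (by
      intro q hq
      obtain ⟨p, hp, rfl⟩ := Finset.mem_image.1 hq
      exact Set.mem_inv.1 (hΛ p hp))
    refine ⟨H, hH, hs, Y'⁻¹, RedR.red hY', fun q hqΛ => ?_⟩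
    obtain ⟨y, hy, e⟩ := hq q⁻¹ (Finset.mem_image_of_mem _ hqΛ)
    exact ⟨y⁻¹, by simpa using hy, by simpa using H.inv_mem e⟩

theorem Top.red {Q : Type} [Group Q] {δ : Q →* Multiplicative ℤ} {C : Subgroup Q} {k n : ℕ}
    (h : Top δ C k n) : Red k (n + 1) (Set.univ : Set Q) := by
  classical
  intro T hT Λ _
  obtain ⟨H, c, l, Y, hH, -, -, -, -, hY, hq, hχ⟩ := h (insert 1 T)
  obtain ⟨χ, h1, -, h2, h3⟩ := hχ 1 (Finset.mem_insert_self _ _)
  refine ⟨H, hH, fun s hs hsH => ?_, Y⁻¹, hY.red, fun q _ => ?_⟩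
  · have := h1 1 s hsH
    rw [one_mul, h2, h3 s (Finset.mem_insert_of_mem hs) (fun e => hT (e ▸ hs))] at this
    exact zero_ne_one this
  · obtain ⟨y, hy, e⟩ := hq q⁻¹
    exact ⟨y⁻¹, by simpa using hy, by simpa using H.inv_mem e⟩

theorem top_all (hb : BaseStmt) (ht : TopStepStmt) (r : ℕ) (hr : 2 ≤ r) (i1 i2 : Fin r)
    (hi : i1 ≠ i2) (d : ℕ) : ∃ k n, Top ((msd r d).dgh i2) (prj r d).ker k n := by
  induction d with
  | zero =>
    have : (prj r 0).ker = ⊤ := by
      rw [eq_top_iff]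
      exact fun _ _ => Subsingleton.elim _ _
    rw [this]
    exact ⟨_, _, hb r i1 i2 hi⟩
  | succ d ih =>
    obtain ⟨k, n, h⟩ := ih
    obtain ⟨c0, hc0, hc1⟩ := ker_nontriv r hr (d + 1)
    have h1 := ht r _ _ (msd r (d + 1)) (fs_tf r (d + 1)) ((msd r d).dgh i2) i1 i2 hi (by
      show Multiplicative.ofAdd ((msd r d).dg i2 ((msd r d).x i2)) = _
      rw [MS.dg_x, if_pos rfl]) c0 hc0 hc1 (prj r d).ker inferInstance
      (fun a ha b hb => (msd r d).ker_comm ha hb) k n h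
    have e : ((msd r d).dgh i2).comp (msd r (d + 1)).pr = (msd r (d + 1)).dgh i2 := by
      refine MonoidHom.ext fun g => ?_
      exact congrArg Multiplicative.ofAdd (dg_prj r d i2 g)
    rw [e] at h1
    exact ⟨_, _, h1⟩

theorem redAll (hb : BaseStmt) (ht : TopStepStmt) : RedAll := by
  intro r d hr
  rcases d with _ | d
  · exact ⟨0, 0, 1, fun q _ => ⟨0, Subsingleton.elim _ _⟩⟩
  · obtain ⟨k, n, h⟩ := top_all hb ht r hr ⟨0, by omega⟩ ⟨1, by omega⟩ (by simp) d
    exact ⟨k, n + 1, h.red⟩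

end Pool.Agent.H259Z.Rich
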